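import Mathlib
import Pool.Agent.V7H22.AK.Gen
import Pool.Agent.V7H22.AK.Mean

/-!
# Arithmetic Kakeya for sets of values of algebraic functions of low degree

Let `K` be an infinite field. `Alg m h r s L A`: the finite set `A` of pairs `(x, y)` of vectors is a set
of values of algebraic functions of `m` digits `t_1, ..., t_m`, each of which takes at most `L` values:
`x`, `y` are polynomials in `t` and in `h` further variables `z`, which are locally determined by `t`
through equations `H(t, z) = 0` (the matrix `∂H / ∂z` has rank `h`); all the degrees are at most `r`;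
and the differentials of `H` and `x - y` together have rank at least `m + h - s` (for `s = 0` the map
`x - y` is unramified).

1. `|A| ≤ k 2 ^ m r ^ (m + h) L ^ (s + m / k) max(|{y}|, max_{σ ∈ S} |{x + σ y}|)`, `k = |S| + 1`.
2. The inequality of the arithmetic Kakeya conjecture with exponent `κ` for all unions of `P` such sets
   with at least `L ^ (c m)` differences `x - y`, if `P r ^ (m + h) ≤ L ^ (θ m)`, `s ≤ σ m` and
   `κ (1 - (θ + σ) / c - η) ≥ 1`, for large `L` and all large `S` (in terms of `c`, `η`). So all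
   exponents `1 + ε` are attained for small `θ`, `σ`, and the exponent is smaller than the best known
   exponent `1.6696` for `(θ + σ) / c < 0.4`.
3. If `y` is an algebraic function of `x - y` (for example a polynomial function), then `A` is of this
   kind, with `h = m = q` and `s = 0`.
4. All finite sets of pairs of rational vectors have copies in `ℤ × ℤ` with projections of the same sizes.

The proof: at every point there is a slope for which the differential of the projection has a kernel of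
dimension at most `s + m / k` (eigenspaces are independent), so that the points with given projection and
`s + m / k` given suitable digits are unramified zeros of a system of equations in `m + h` variables;
there are at most `r ^ (m + h)` of them (Bezout's inequality for unramified zeros over arbitrary infinite
fields, proved by counting dimensions).
-/

set_option autoImplicit false

open Finset MvPolynomial

namespace Pool.Agent.V7H22.Moved.AlgebraicSetsH22

/-- the projection `{x + s y : (x, y) ∈ A}` -/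
def projV {K : Type} [Field K] [DecidableEq K] {q : ℕ} (s : K)
    (A : Finset ((Fin q → K) × (Fin q → K))) : Finset (Fin q → K) :=
  A.image fun p => p.1 + s • p.2

/-- the largest size of a projection of `A` with slope `∞` or in `S` -/
def bigV {K : Type} [Field K] [DecidableEq K] {q : ℕ} (S : Finset K)
    (A : Finset ((Fin q → K) × (Fin q → K))) : ℕ :=
  max (A.image fun p => p.2).card (S.sup fun s => (projV s A).card)

/-- the Jacobian matrix at the point `t` -/
noncomputable def jac {K : Type} [Field K] {ι κ : Type} (F : κ → MvPolynomial ι K) (t : ι → K) :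
    Matrix κ ι K := Matrix.of fun i j => eval t (pderiv j (F i))

/-- the part of the Jacobian matrix which belongs to the variables in the second group -/
noncomputable def jac2 {K : Type} [Field K] {ι ι' κ : Type} (F : κ → MvPolynomial (ι ⊕ ι') K)
    (t : ι ⊕ ι' → K) : Matrix κ ι' K := Matrix.of fun i j => eval t (pderiv (Sum.inr j) (F i))

/-- `A` is a set of values `(X(t), Y(t))` of algebraic functions of degree at most `r` of `m` digits with
at most `L` values, with `h` auxiliary variables; the rank of the differential of `X - Y` is at least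
`m - s` -/
def Alg {K : Type} [Field K] [DecidableEq K] {q : ℕ} (m h r s L : ℕ)
    (A : Finset ((Fin q → K) × (Fin q → K))) : Prop :=
  ∃ (n : ℕ) (T : Finset (Fin m ⊕ Fin h → K)) (X Y : Fin q → MvPolynomial (Fin m ⊕ Fin h) K)
    (H : Fin n → MvPolynomial (Fin m ⊕ Fin h) K),
    (∀ i, (X i).totalDegree ≤ r ∧ (Y i).totalDegree ≤ r) ∧ (∀ i, (H i).totalDegree ≤ r) ∧
    (∀ t ∈ T, (∀ i, eval t (H i) = 0) ∧ (jac2 H t).rank = h ∧
      m + h ≤ (jac (Sum.elim H fun i => X i - Y i) t).rank + s) ∧
    (∀ j, (T.image fun t => t (Sum.inl j)).card ≤ L) ∧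
    A = T.image fun t => (fun i => eval t (X i), fun i => eval t (Y i))

section
variable {K : Type} [Field K] [DecidableEq K] {q : ℕ}

theorem bigV_le {S : Finset K} {A B : Finset ((Fin q → K) × (Fin q → K))} (h : A ⊆ B) :
    bigV S A ≤ bigV S B := by
  refine max_le_max (card_le_card (image_subset_image h)) (sup_mono_fun fun s _ => ?_)
  exact card_le_card (image_subset_image h)

theorem bigV_mono {S T : Finset K} (h : S ⊆ T) (A : Finset ((Fin q → K) × (Fin q → K))) :
    bigV S A ≤ bigV T A :=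
  max_le_max le_rfl (sup_mono h)

/-- from ranks to kernels, auxiliary variables -/
theorem unram {m h n : ℕ} (H : Fin n → MvPolynomial (Fin m ⊕ Fin h) K) (t : Fin m ⊕ Fin h → K)
    (hrank : (jac2 H t).rank = h) (w : Fin m ⊕ Fin h → K)
    (hw : Pool.Agent.V7H22.AK.dlin H t w = 0) (h0 : ∀ j, w (Sum.inl j) = 0) : w = 0 := by
  have h1 := LinearMap.finrank_range_add_finrank_ker (jac2 H t).mulVecLin
  rw [Module.finrank_fin_fun] at h1
  unfold Matrix.rank at hrank
  have h2 : Module.finrank K (LinearMap.ker (jac2 H t).mulVecLin) = 0 := by omega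
  rw [Submodule.finrank_eq_zero] at h2
  have h3 : (fun j => w (Sum.inr j)) ∈ LinearMap.ker (jac2 H t).mulVecLin := by
    rw [LinearMap.mem_ker, Matrix.mulVecLin_apply]
    funext i
    have h4 := congrFun hw i
    rw [Pool.Agent.V7H22.AK.dlin_apply, Fintype.sum_sum_type,
      sum_eq_zero (s := (univ : Finset (Fin m))) (fun j _ => by rw [h0 j, mul_zero]),
      zero_add] at h4
    exact h4
  rw [h2, Submodule.mem_bot] at h3
  funext j
  rcases j with j | j
  · exact h0 j
  · exact congrFun h3 j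

/-- the kernel of the Jacobian matrix of two families -/
theorem ker_jac {ι : Type} [Fintype ι] {n : ℕ} (H : Fin n → MvPolynomial ι K)
    (D : Fin q → MvPolynomial ι K) (t : ι → K) :
    LinearMap.ker (jac (Sum.elim H D) t).mulVecLin =
      LinearMap.ker (Pool.Agent.V7H22.AK.dlin H t) ⊓
        LinearMap.ker (Pool.Agent.V7H22.AK.dlin D t) := by
  ext w
  rw [Submodule.mem_inf, LinearMap.mem_ker, LinearMap.mem_ker, LinearMap.mem_ker,
    Matrix.mulVecLin_apply]
  constructor
  · intro h
    exact ⟨funext fun i => congrFun h (Sum.inl i), funext fun i => congrFun h (Sum.inr i)⟩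
  · rintro ⟨h1, h2⟩
    funext i
    rcases i with i | i
    · exact congrFun h1 i
    · exact congrFun h2 i

/-- the main inequality -/
theorem alg_card [Infinite K] {m h r s L : ℕ} {S : Finset K}
    {A : Finset ((Fin q → K) × (Fin q → K))} (hS : (-1 : K) ∉ S) (hr : 1 ≤ r) (hL : 1 ≤ L)
    (hA : Alg m h r s L A) :
    A.card ≤ (S.card + 1) * 2 ^ m * r ^ (m + h) * L ^ (s + m / (S.card + 1)) * bigV S A := by
  classical
  obtain ⟨n, T, X, Y, H, hXY, hH, hT, hdig, rfl⟩ := hA
  have h1 : ∀ s ∈ S, s + 1 ≠ 0 := by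
    intro s hs h
    apply hS
    have : s = -1 := eq_neg_of_add_eq_zero_left h
    rwa [← this]
  set U : Finset K := insert 0 (S.image fun s => (s + 1)⁻¹) with hU
  have hUc : U.card = S.card + 1 := by
    rw [hU, card_insert_of_notMem, card_image_of_injOn]
    · intro s _ t _ h
      have h2 : s + 1 = t + 1 := inv_injective h
      exact add_right_cancel h2
    · intro h
      obtain ⟨s, hs, h2⟩ := mem_image.1 h
      exact h1 s hs (inv_eq_zero.1 h2)
  set A := T.image fun t => ((fun i => eval t (X i) : Fin q → K), (fun i => eval t (Y i) :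
    Fin q → K)) with hA
  refine card_image_le.trans ?_
  have h2 := Pool.Agent.V7H22.AK.count_gen U ⟨0, mem_insert_self _ _⟩ r s
    (L ^ (s + m / (S.card + 1))) (bigV S A) hr T
    Y (fun i => X i - Y i) H (fun i => (hXY i).2)
    (fun i => (totalDegree_sub _ _).trans (max_le (hXY i).1 (hXY i).2)) hH
    (fun t ht => (hT t ht).1) (fun t ht => unram H t (hT t ht).2.1)
    (by
      intro t ht
      have h3 := (hT t ht).2.2
      have h4 := LinearMap.finrank_range_add_finrank_ker
        (jac (Sum.elim H fun i => X i - Y i) t).mulVecLin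
      rw [Module.finrank_fintype_fun_eq_card, Fintype.card_sum, Fintype.card_fin,
        Fintype.card_fin, ker_jac] at h4
      unfold Matrix.rank at h3
      omega)
    (by
      intro J hJ
      rw [hUc] at hJ
      have h3 : (T.image fun t => fun j : J => t (Sum.inl j.1)) ⊆
          Fintype.piFinset fun j : J => T.image fun t => t (Sum.inl j.1) := by
        intro x hx
        obtain ⟨t, ht, rfl⟩ := mem_image.1 hx
        rw [Fintype.mem_piFinset]
        exact fun j => mem_image_of_mem (fun t : Fin m ⊕ Fin h → K => t (Sum.inl j.1)) ht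
      refine (card_le_card h3).trans ?_
      rw [Fintype.card_piFinset]
      calc ∏ j : J, (T.image fun t => t (Sum.inl j.1)).card ≤ ∏ _j : J, L :=
            prod_le_prod' fun j _ => hdig j.1
        _ = L ^ J.card := by rw [prod_const, card_univ, Fintype.card_coe]
        _ ≤ L ^ (s + m / (S.card + 1)) := Nat.pow_le_pow_right hL hJ)
    (by
      intro u hu
      rw [hU, mem_insert] at hu
      rcases hu with rfl | hu
      · refine le_trans (le_of_eq ?_) (le_max_left _ _)
        rw [hA, image_image]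
        congr 1
        refine image_congr fun t _ => ?_
        funext i
        simp
      · obtain ⟨s, hs, rfl⟩ := mem_image.1 hu
        refine le_trans ?_ ((le_sup (f := fun s => (projV s A).card) hs).trans (le_max_right _ _))
        have h3 : (T.image fun t => fun i => eval t (Y i) + (s + 1)⁻¹ * eval t (X i - Y i)) =
            (projV s A).image fun v => (s + 1)⁻¹ • v := by
          unfold projV
          rw [image_image, hA, image_image]
          refine image_congr fun t _ => ?_
          funext i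
          simp only [Function.comp_apply, Pi.add_apply, Pi.smul_apply, smul_eq_mul, map_sub]
          have := h1 s hs
          field_simp
          ring
        rw [h3]
        exact card_image_le)
  rw [hUc] at h2
  exact h2

/-- the number of differences in a union of pieces -/
theorem alg_pieces [Infinite K] {m h r s L P : ℕ} {S : Finset K} (hS : (-1 : K) ∉ S) (hr : 1 ≤ r)
    (hL : 1 ≤ L) (B : Fin P → Finset ((Fin q → K) × (Fin q → K)))
    (hB : ∀ ρ, Alg m h r s L (B ρ)) :
    (projV (-1) (univ.biUnion B)).card ≤ P * ((S.card + 1) * 2 ^ m * r ^ (m + h) *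
      L ^ (s + m / (S.card + 1)) * bigV S (univ.biUnion B)) := by
  classical
  refine card_image_le.trans (card_biUnion_le.trans ?_)
  have h4 : ∀ ρ ∈ (univ : Finset (Fin P)), (B ρ).card ≤ (S.card + 1) * 2 ^ m *
      r ^ (m + h) * L ^ (s + m / (S.card + 1)) * bigV S (univ.biUnion B) := by
    intro ρ _
    refine (alg_card hS hr hL (hB ρ)).trans (Nat.mul_le_mul_left _ (bigV_le ?_))
    exact subset_biUnion_of_mem B (mem_univ ρ)
  refine (sum_le_sum h4).trans ?_
  rw [sum_const, card_univ, Fintype.card_fin, smul_eq_mul]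

/-- implicit functions -/
theorem alg_implicit {n r L : ℕ} (hr : 1 ≤ r) (A : Finset ((Fin q → K) × (Fin q → K)))
    (H : Fin n → MvPolynomial (Fin q ⊕ Fin q) K) (hH : ∀ i, (H i).totalDegree ≤ r)
    (hzero : ∀ p ∈ A, (∀ i, eval (Sum.elim (p.1 - p.2) p.2) (H i) = 0) ∧
      (jac2 H (Sum.elim (p.1 - p.2) p.2)).rank = q)
    (hL : ∀ j, (A.image fun p => p.1 j - p.2 j).card ≤ L) : Alg q q r 0 L A := by
  classical
  refine ⟨n, A.image fun p => Sum.elim (p.1 - p.2) p.2,
    fun i => MvPolynomial.X (Sum.inl i) + MvPolynomial.X (Sum.inr i),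
    fun i => MvPolynomial.X (Sum.inr i), H, fun i => ⟨?_, ?_⟩, hH, ?_, fun j => ?_, ?_⟩
  · refine (totalDegree_add _ _).trans ?_
    rw [totalDegree_X, totalDegree_X]
    exact max_le hr hr
  · rw [totalDegree_X]
    exact hr
  · intro t ht
    obtain ⟨p, hp, rfl⟩ := mem_image.1 ht
    refine ⟨(hzero p hp).1, (hzero p hp).2, ?_⟩
    set t := (Sum.elim (p.1 - p.2) p.2 : Fin q ⊕ Fin q → K) with ht'
    set D : Fin q → MvPolynomial (Fin q ⊕ Fin q) K := fun i =>
      MvPolynomial.X (Sum.inl i) + MvPolynomial.X (Sum.inr i) - MvPolynomial.X (Sum.inr i) with hD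
    have hker : LinearMap.ker (jac (Sum.elim H D) t).mulVecLin = ⊥ := by
      rw [ker_jac, eq_bot_iff]
      intro w hw
      rw [Submodule.mem_inf, LinearMap.mem_ker, LinearMap.mem_ker] at hw
      rw [Submodule.mem_bot]
      refine unram H t (hzero p hp).2 w hw.1 fun j => ?_
      have h1 := congrFun hw.2 j
      rw [Pool.Agent.V7H22.AK.dlin_apply] at h1
      have h2 : ∀ l, eval t (pderiv l (D j)) * w l = if Sum.inl j = l then w (Sum.inl j) else 0 := by
        intro l
        simp only [hD, add_sub_cancel_right, pderiv_X]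
        by_cases hlj : Sum.inl j = l
        · subst hlj
          simp
        · rw [if_neg hlj, Pi.single_eq_of_ne (fun h => hlj h), map_zero, zero_mul]
      rw [sum_congr rfl fun l _ => h2 l, sum_ite_eq] at h1
      simpa using h1
    have h4 := LinearMap.finrank_range_add_finrank_ker (jac (Sum.elim H D) t).mulVecLin
    rw [hker, finrank_bot, Module.finrank_fintype_fun_eq_card, Fintype.card_sum,
      Fintype.card_fin] at h4
    unfold Matrix.rank
    omega
  · rw [image_image]
    exact hL j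
  · rw [image_image]
    symm
    refine Eq.trans (image_congr (g := id) fun p _ => ?_) image_id
    refine Prod.ext (funext fun i => ?_) (funext fun i => ?_)
    · simp
    · simp

end

/-- the numbers -/
theorem arith {c τ κ : ℝ} (hτ : 0 ≤ τ) (hκ : 0 ≤ κ) (h : 1 ≤ κ * (1 - τ))
    {ℓ D B m : ℝ} (hℓ : 1 ≤ ℓ) (hcm : 0 ≤ c * m) (hB : 0 ≤ B)
    (h1 : D ≤ ℓ ^ (c * m * τ) * B) (h2 : ℓ ^ (c * m) ≤ D) : D ≤ B ^ κ := by
  have h0 : (1 : ℝ) ≤ ℓ ^ (c * m) := Real.one_le_rpow hℓ hcm
  have hD : 0 < D := by linarith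
  have h3 : ℓ ^ (c * m * τ) ≤ D ^ τ := by
    rw [Real.rpow_mul (by linarith)]
    exact Real.rpow_le_rpow (by linarith) h2 hτ
  have h4 : D ≤ D ^ τ * B := h1.trans (mul_le_mul_of_nonneg_right h3 hB)
  have h5 : D ^ τ * D ^ (1 - τ) = D := by
    rw [← Real.rpow_add hD]
    have : τ + (1 - τ) = 1 := by ring
    rw [this, Real.rpow_one]
  have h6 : D ^ (1 - τ) ≤ B := by
    have h7 : 0 < D ^ τ := Real.rpow_pos_of_pos hD _
    refine le_of_mul_le_mul_left ?_ h7
    rw [h5]
    exact h4
  calc D = D ^ (1 : ℝ) := (Real.rpow_one D).symm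
    _ ≤ D ^ ((1 - τ) * κ) := Real.rpow_le_rpow_of_exponent_le (h0.trans h2) (by linarith)
    _ = (D ^ (1 - τ)) ^ κ := by rw [Real.rpow_mul hD.le]
    _ ≤ B ^ κ := Real.rpow_le_rpow (by positivity) h6 hκ

/-- **the inequality of the conjecture for the values of algebraic functions** -/
theorem alg_kakeya {c η : ℝ} (hc : 0 < c) (hη : 0 < η) :
    ∃ s0 L0 : ℕ, ∀ (K : Type) [Field K] [Infinite K] [DecidableEq K] (S : Finset K)
      (m q h r s L P : ℕ) (B : Fin P → Finset ((Fin q → K) × (Fin q → K))) (θ σ κ : ℝ),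
      (-1 : K) ∉ S → s0 ≤ S.card → L0 ≤ L → 1 ≤ m → 1 ≤ r → 0 ≤ θ → 0 ≤ σ →
      (P : ℝ) * (r : ℝ) ^ (m + h) ≤ (L : ℝ) ^ (θ * m) → (s : ℝ) ≤ σ * m →
      (∀ ρ, Alg m h r s L (B ρ)) →
      (L : ℝ) ^ (c * m) ≤ (projV (-1) (univ.biUnion B)).card →
      0 ≤ κ → 1 ≤ κ * (1 - ((θ + σ) / c + η)) →
      ((projV (-1) (univ.biUnion B)).card : ℝ) ≤ (bigV S (univ.biUnion B) : ℝ) ^ κ := by
  classical
  set δ : ℝ := c * η / 3 with hδ
  have hδ0 : 0 < δ := by positivity
  set s0 : ℕ := ⌈1 / δ⌉₊ with hs0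
  set L0 : ℕ := ⌈((s0 : ℝ) + 2) ^ (1 / δ)⌉₊ with hL0
  refine ⟨s0, L0, ?_⟩
  intro K _ _ _ S m q h r s L P B θ σ κ hS hSc hL hm hr hθ hσ hP hs hB hD hκ hκ1
  obtain ⟨S', hS', hSc'⟩ := exists_subset_card_eq hSc
  have hL1 : 1 ≤ L := by
    have h1 : 0 < L0 := Nat.ceil_pos.2 (by positivity)
    omega
  have hLL : (L0 : ℝ) ≤ (L : ℝ) := Nat.cast_le.2 hL
  have hbase := alg_pieces (S := S') (fun h => hS (hS' h)) hr hL1 B hB
  rw [hSc'] at hbase
  have hbig := bigV_mono hS' (univ.biUnion B)
  set A := univ.biUnion B with hA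
  have hbase' : ((projV (-1) A).card : ℝ) ≤ P * (((s0 : ℝ) + 1) * 2 ^ m * r ^ (m + h) *
      (L : ℝ) ^ (s + m / (s0 + 1)) * (bigV S' A : ℝ)) := by
    have h1 := (Nat.cast_le (α := ℝ)).2 hbase
    simp only [Nat.cast_mul, Nat.cast_pow, Nat.cast_add, Nat.cast_one, Nat.cast_ofNat] at h1
    exact h1
  have h1' : ((s0 : ℝ) + 2) ^ (1 / δ) ≤ (L : ℝ) := (Nat.le_ceil _).trans hLL
  have hℓ1 : 1 ≤ (L : ℝ) := Nat.one_le_cast.2 hL1
  set ℓ : ℝ := (L : ℝ) with hℓ
  have hm1 : (1 : ℝ) ≤ m := by exact_mod_cast hm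
  -- the size of `L`
  have h1 : (s0 : ℝ) + 2 ≤ ℓ ^ δ := by
    calc (s0 : ℝ) + 2 = (((s0 : ℝ) + 2) ^ (1 / δ)) ^ δ := by
          rw [← Real.rpow_mul (by positivity)]
          have : 1 / δ * δ = 1 := by field_simp
          rw [this, Real.rpow_one]
      _ ≤ ℓ ^ δ := Real.rpow_le_rpow (by positivity) h1' hδ0.le
  -- the factors
  have hδm : (0 : ℝ) ≤ δ * m := by positivity
  have f1 : (s0 : ℝ) + 1 ≤ ℓ ^ (δ * m) := by
    have h2 : ℓ ^ δ ≤ ℓ ^ (δ * m) := Real.rpow_le_rpow_of_exponent_le hℓ1 (by nlinarith)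
    linarith
  have f2 : (2 : ℝ) ^ m ≤ ℓ ^ (δ * m) := by
    rw [Real.rpow_mul (by linarith), Real.rpow_natCast]
    refine pow_le_pow_left₀ (by norm_num) ?_ _
    have h3 : (0 : ℝ) ≤ s0 := Nat.cast_nonneg _
    linarith
  have f3 : ℓ ^ (s + m / (s0 + 1)) ≤ ℓ ^ (σ * m + δ * m) := by
    rw [← Real.rpow_natCast]
    refine Real.rpow_le_rpow_of_exponent_le hℓ1 ?_
    have h2 : ((m / (s0 + 1) : ℕ) : ℝ) ≤ δ * m := by
      have h3 : ((m / (s0 + 1) : ℕ) : ℝ) ≤ (m : ℝ) / ((s0 + 1 : ℕ) : ℝ) := Nat.cast_div_le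
      refine h3.trans ?_
      rw [div_le_iff₀ (by positivity)]
      push_cast
      have h4 : 1 / δ ≤ s0 := Nat.le_ceil _
      have h5 : 1 ≤ δ * s0 := by
        rw [div_le_iff₀ hδ0] at h4
        linarith
      nlinarith
    push_cast
    linarith
  have hB0 : (0 : ℝ) ≤ bigV S' A := Nat.cast_nonneg _
  have hpos : 0 < ℓ ^ (δ * m) := Real.rpow_pos_of_pos (by linarith) _
  have hpos2 : 0 < ℓ ^ (θ * m) := Real.rpow_pos_of_pos (by linarith) _
  have h2 : ((projV (-1) A).card : ℝ) ≤ ℓ ^ (c * m * ((θ + σ) / c + η)) * (bigV S' A : ℝ) := by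
    refine hbase'.trans ?_
    have e1 : (P : ℝ) * (((s0 : ℝ) + 1) * 2 ^ m * r ^ (m + h) *
        ℓ ^ (s + m / (s0 + 1)) * (bigV S' A : ℝ)) =
        ((P : ℝ) * (r : ℝ) ^ (m + h)) * ((s0 : ℝ) + 1) * 2 ^ m *
          ℓ ^ (s + m / (s0 + 1)) * (bigV S' A : ℝ) := by
      ring
    have e2 : ℓ ^ (c * m * ((θ + σ) / c + η)) =
        ℓ ^ (θ * m) * ℓ ^ (δ * m) * ℓ ^ (δ * m) * ℓ ^ (σ * m + δ * m) := by
      rw [← Real.rpow_add (by linarith), ← Real.rpow_add (by linarith),
        ← Real.rpow_add (by linarith)]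
      congr 1
      rw [hδ]
      field_simp
      ring
    rw [e1, e2]
    refine mul_le_mul_of_nonneg_right ?_ hB0
    refine mul_le_mul (mul_le_mul (mul_le_mul hP f1 (by positivity) hpos2.le) f2 (by positivity)
      (by positivity)) f3 (by positivity) (by positivity)
  have h3 := arith (c := c) (m := m) (by positivity : 0 ≤ (θ + σ) / c + η) hκ hκ1 hℓ1
    (by positivity) hB0 h2 hD
  exact h3.trans (Real.rpow_le_rpow hB0 (Nat.cast_le.2 hbig) hκ)

/-- copies in the plane -/
theorem alg_copy {q : ℕ} (A : Finset ((Fin q → ℚ) × (Fin q → ℚ))) (S : Finset ℚ)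
    (hS : (-1 : ℚ) ∉ S) : ∃ A' : Finset (ℤ × ℤ),
      (A'.image fun p : ℤ × ℤ => (p.2 : ℚ)).card = (A.image fun p => p.2).card ∧
      ∀ s ∈ insert (-1) S, (A'.image fun p : ℤ × ℤ => (p.1 : ℚ) + s * (p.2 : ℚ)).card =
        (projV s A).card := by
  classical
  obtain ⟨Φ, h1, h2⟩ := Pool.Agent.V7H22.AK.realise (Ω := {p // p ∈ A}) (fun p => p.1.2)
    (fun p => p.1.1 - p.1.2) (insert 0 (S.image fun s => 1 / (s + 1)))
  have hun : ∀ {γ : Type} [DecidableEq γ] (g : (Fin q → ℚ) × (Fin q → ℚ) → γ),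
      A.image g = (univ : Finset {p // p ∈ A}).image fun p => g p.1 := by
    intro γ _ g
    ext x
    simp
  refine ⟨univ.image Φ, ?_, fun s hs => ?_⟩
  · rw [image_image, hun]
    refine Pool.Agent.V7H22.AK.card_image_congr univ _ _ fun p _ p' _ => ?_
    simp only [Function.comp_apply]
    have h3 := h1 0 (mem_insert_self _ _) p p'
    rw [Pool.Agent.V7H22.AK.pr_zero, Pool.Agent.V7H22.AK.pr_zero, zero_smul, zero_smul, add_zero,
      add_zero] at h3
    exact h3
  · rcases mem_insert.1 hs with rfl | hs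
    · unfold projV
      rw [image_image, hun]
      refine Pool.Agent.V7H22.AK.card_image_congr univ _ _ fun p _ p' _ => ?_
      simp only [Function.comp_apply]
      have h3 : ∀ p : {p // p ∈ A}, p.1.1 + (-1 : ℚ) • p.1.2 = p.1.1 - p.1.2 := by
        intro p
        rw [neg_smul, one_smul, sub_eq_add_neg]
      rw [h3, h3, ← h2 p p']
      unfold Pool.Agent.V7H22.AK.df
      constructor
      · intro h
        have h4 : ((Φ p).1 : ℚ) - (Φ p).2 = (Φ p').1 - (Φ p').2 := by linarith
        exact_mod_cast h4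
      · intro h
        have h4 : (((Φ p).1 - (Φ p).2 : ℤ) : ℚ) = (((Φ p').1 - (Φ p').2 : ℤ) : ℚ) := by rw [h]
        push_cast at h4
        linarith
    · unfold projV
      rw [image_image, hun]
      have hs1 : s ≠ -1 := fun h => hS (h ▸ hs)
      have hs2 : s + 1 ≠ 0 := fun h => hs1 (by linarith)
      refine Pool.Agent.V7H22.AK.card_image_congr univ _ _ fun p _ p' _ => ?_
      simp only [Function.comp_apply]
      rw [Pool.Agent.V7H22.AK.slope_iff hs1,
        h1 _ (mem_insert_of_mem (mem_image_of_mem _ hs)) p p']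
      have h3 : ∀ p : {p // p ∈ A}, p.1.1 + s • p.1.2 =
          (s + 1) • (p.1.2 + (1 / (s + 1)) • (p.1.1 - p.1.2)) := by
        intro p
        ext i
        simp only [Pi.add_apply, Pi.smul_apply, Pi.sub_apply, smul_eq_mul]
        field_simp
        ring
      rw [h3, h3]
      exact ⟨fun h => by rw [h], fun h => smul_right_injective _ hs2 h⟩

theorem result :
    -- 1. the main inequality
    (∀ (K : Type) [Field K] [Infinite K] [DecidableEq K] (S : Finset K) (m q h r s L : ℕ)
      (A : Finset ((Fin q → K) × (Fin q → K))), (-1 : K) ∉ S → 1 ≤ r → 1 ≤ L → Alg m h r s L A →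
      A.card ≤ (S.card + 1) * 2 ^ m * r ^ (m + h) * L ^ (s + m / (S.card + 1)) * bigV S A) ∧
    -- 2. the inequality of the conjecture
    (∀ c η : ℝ, 0 < c → 0 < η → ∃ s0 L0 : ℕ,
      ∀ (K : Type) [Field K] [Infinite K] [DecidableEq K] (S : Finset K) (m q h r s L P : ℕ)
        (B : Fin P → Finset ((Fin q → K) × (Fin q → K))) (θ σ κ : ℝ),
        (-1 : K) ∉ S → s0 ≤ S.card → L0 ≤ L → 1 ≤ m → 1 ≤ r → 0 ≤ θ → 0 ≤ σ →
        (P : ℝ) * (r : ℝ) ^ (m + h) ≤ (L : ℝ) ^ (θ * m) → (s : ℝ) ≤ σ * m →
        (∀ ρ, Alg m h r s L (B ρ)) →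
        (L : ℝ) ^ (c * m) ≤ (projV (-1) (univ.biUnion B)).card →
        0 ≤ κ → 1 ≤ κ * (1 - ((θ + σ) / c + η)) →
        ((projV (-1) (univ.biUnion B)).card : ℝ) ≤ (bigV S (univ.biUnion B) : ℝ) ^ κ) ∧
    -- 3. implicit functions
    (∀ (K : Type) [Field K] [DecidableEq K] (n q r L : ℕ) (A : Finset ((Fin q → K) × (Fin q → K)))
      (H : Fin n → MvPolynomial (Fin q ⊕ Fin q) K), 1 ≤ r → (∀ i, (H i).totalDegree ≤ r) →
      (∀ p ∈ A, (∀ i, eval (Sum.elim (p.1 - p.2) p.2) (H i) = 0) ∧
        (jac2 H (Sum.elim (p.1 - p.2) p.2)).rank = q) →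
      (∀ j, (A.image fun p => p.1 j - p.2 j).card ≤ L) → Alg q q r 0 L A) ∧
    -- 4. copies in the plane
    (∀ (q : ℕ) (A : Finset ((Fin q → ℚ) × (Fin q → ℚ))) (S : Finset ℚ), (-1 : ℚ) ∉ S →
      ∃ A' : Finset (ℤ × ℤ),
        (A'.image fun p : ℤ × ℤ => (p.2 : ℚ)).card = (A.image fun p => p.2).card ∧
        ∀ s ∈ insert (-1) S, (A'.image fun p : ℤ × ℤ => (p.1 : ℚ) + s * (p.2 : ℚ)).card =
          (projV s A).card) :=
  ⟨fun _ _ _ _ _ _ _ _ _ _ _ _ hS hr hL hA => alg_card hS hr hL hA,
    fun _ _ hc hη => alg_kakeya hc hη,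
    fun _ _ _ _ _ _ _ A H hr hH hzero hL => alg_implicit hr A H hH hzero hL,
    fun _ A S hS => alg_copy A S hS⟩

end Pool.Agent.V7H22.Moved.AlgebraicSetsH22
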