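import Mathlib
import Pool.Agent.V7H22.AK.Fol
import Pool.Agent.V7H22.AK.MultMean

/-!
# Arithmetic Kakeya: rearrangements, homogeneous flat sets, almost all slopes

`Bound S κ`: the inequality `|π₋₁(A)| ≤ max(|π_∞(A)|, max_{r ∈ S} |π_r(A)|) ^ κ` holds for all finite
`A ⊂ ℤ × ℤ`. The exponent `κ` is attained if `Bound S κ` for some finite set `S` of slopes `≠ -1`; the
conjecture says that all `κ > 1` are attained.

1. For every `S` and `κ`, `Bound S κ` is equivalent to the same inequality for the numbers `perms` of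
   different rearrangements of integer vectors: `perms (X - Y) ≤ (max perms (X + r Y)) ^ κ`. The
   conjecture is equivalent to: for every `ε > 0` there is `K` such that for all integer vectors `Y`, `D`
   `perms (D) ^ K ≤ (perms (Y) perms (Y + D) ... perms (Y + (K - 1) D)) ^ (1 + ε)`.
2. It suffices to treat sets `A` with `π₋₁` injective on `A` which are homogeneous (the permutations of
   `A` that respect the fibres of all the projections with slopes in `S ∪ {∞}` are transitive; in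
   particular all fibres of one projection have the same size) and flat (all the projections have
   the same size up to `|A| ^ η`), and to prove the inequality up to a constant: `κ` is attained if and
   only if this holds for some `S`, `η > 0`, `C`. (Words of a fixed type in a tensor power, products over
   translations of the slope coordinate `1 / (r + 1)`.)
3. For every attained exponent `κ` (such as `1.669587`), every `θ > 0` and all long progressions of `K`
   slopes in the coordinate `u = 1 / (r + 1)`: for every `A` all but `θ K` of the slopes satisfy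
   `|π₋₁(A)| ≤ |π_r(A)| ^ κ`. The same is true for the slopes of all cubes
   `{a + ∑ c_i w_i : w_i ∈ {0, ..., m}}` of large dimension with arbitrary rational sides without
   vanishing subsums (density Hales-Jewett theorem), and of all finite sets `F ⊂ ℚ` which are almost
   invariant under the translations by `n(θ)` rationals without vanishing subsums.
-/

set_option autoImplicit false

open Finset

namespace Pool.Agent.Results.MP_169869_co.HomogeneousSetsH22

/-- the projection `π_r(A) = {x + r y : (x, y) ∈ A}` -/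
def proj (r : ℚ) (A : Finset (ℤ × ℤ)) : Finset ℚ :=
  A.image (fun p : ℤ × ℤ => (p.1 : ℚ) + r * (p.2 : ℚ))

/-- the projection `π_∞(A) = {y : (x, y) ∈ A}` -/
def projInf (A : Finset (ℤ × ℤ)) : Finset ℚ := A.image (fun p : ℤ × ℤ => (p.2 : ℚ))

/-- the largest size of a projection of `A` with slope `∞` or in `S` -/
def big (S : Finset ℚ) (A : Finset (ℤ × ℤ)) : ℕ :=
  max (projInf A).card (S.sup fun r => (proj r A).card)

/-- the inequality with exponent `κ` and the slopes `∞` and `S` -/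
def Bound (S : Finset ℚ) (κ : ℝ) : Prop :=
  ∀ A : Finset (ℤ × ℤ), ((proj (-1) A).card : ℝ) ≤ (big S A : ℝ) ^ κ

/-- the exponent `κ` is attained by some finite set of slopes different from `-1` -/
def Attained (κ : ℝ) : Prop := ∃ S : Finset ℚ, (-1 : ℚ) ∉ S ∧ Bound S κ

/-- the arithmetic Kakeya conjecture -/
def Conjecture : Prop := ∀ ε : ℝ, 0 < ε → Attained (1 + ε)

/-- the number of different rearrangements of a vector -/
def perms {N : ℕ} (v : Fin N → ℚ) : ℕ :=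
  ((univ : Finset (Equiv.Perm (Fin N))).image fun σ => fun i => v (σ i)).card

/-- the inequality for the numbers of rearrangements of integer vectors -/
def MultBound (S : Finset ℚ) (κ : ℝ) : Prop :=
  ∀ (N : ℕ) (X Y : Fin N → ℤ), (perms (fun i => (X i : ℚ) - Y i) : ℝ) ≤
    ((max (perms fun i => (Y i : ℚ)) (S.sup fun r => perms fun i => (X i : ℚ) + r * Y i) : ℕ) : ℝ)
      ^ κ

/-- the mean inequality for the numbers of rearrangements of integer vectors -/
def MultMean (κ : ℝ) (K : ℕ) : Prop :=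
  ∀ (N : ℕ) (Y D : Fin N → ℤ), (perms (fun i => (D i : ℚ)) : ℝ) ^ K ≤
    ((∏ b ∈ range K, perms (fun i => (Y i : ℚ) + b * D i) : ℕ) : ℝ) ^ κ

/-- the projection `{y + u (x - y) : (x, y) ∈ A}` -/
def projU (u : ℚ) (A : Finset (ℤ × ℤ)) : Finset ℚ :=
  A.image (fun p : ℤ × ℤ => (p.2 : ℚ) + u * ((p.1 : ℚ) - p.2))

/-- the map `x - y` is injective on `A` -/
def Inj (A : Finset (ℤ × ℤ)) : Prop := Set.InjOn (fun p : ℤ × ℤ => p.1 - p.2) (A : Set (ℤ × ℤ))

/-- for all points `a`, `b` of `A` there is a permutation `γ` of `A` with `γ a = b` which respects the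
fibres of all the projections with slopes `∞` and in `S` -/
def Homogeneous (S : Finset ℚ) (A : Finset (ℤ × ℤ)) : Prop :=
  ∀ a ∈ A, ∀ b ∈ A, ∃ γ : ℤ × ℤ → ℤ × ℤ, Set.BijOn γ A A ∧ γ a = b ∧
    ∀ p ∈ A, ∀ q ∈ A, (p.2 = q.2 ↔ (γ p).2 = (γ q).2) ∧
      ∀ r ∈ S, ((p.1 : ℚ) + r * (p.2 : ℚ) = (q.1 : ℚ) + r * (q.2 : ℚ) ↔
        ((γ p).1 : ℚ) + r * ((γ p).2 : ℚ) = ((γ q).1 : ℚ) + r * ((γ q).2 : ℚ))

/-- the sizes of all the projections with slopes `∞` and in `S` agree up to the factor `|A| ^ η` -/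
def Flat (S : Finset ℚ) (η : ℝ) (A : Finset (ℤ × ℤ)) : Prop :=
  (big S A : ℝ) ≤ (A.card : ℝ) ^ η * (projInf A).card ∧
    ∀ r ∈ S, (big S A : ℝ) ≤ (A.card : ℝ) ^ η * (proj r A).card

/-- the inequality for homogeneous flat sets, up to a constant -/
def HomBound (κ : ℝ) : Prop :=
  ∃ S : Finset ℚ, (-1 : ℚ) ∉ S ∧ ∃ η C : ℝ, 0 < η ∧ ∀ A : Finset (ℤ × ℤ), Inj A →
    Homogeneous S A → Flat S η A → (A.card : ℝ) ≤ C * (big S A : ℝ) ^ κ

open Classical in
/-- for every `A`, the slopes `u w` do not satisfy the inequality for at most `θ |W|` of the `w ∈ W` -/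
def AlmostAll (κ θ : ℝ) {ι : Type} (W : Finset ι) (u : ι → ℚ) : Prop :=
  ∀ A : Finset (ℤ × ℤ), ((W.filter fun w => ((projU (u w) A).card : ℝ) ^ κ <
    (proj (-1) A).card).card : ℝ) ≤ θ * W.card

theorem fibres {S : Finset ℚ} {A : Finset (ℤ × ℤ)} (h : Homogeneous S A) {p q : ℤ × ℤ}
    (hp : p ∈ A) (hq : q ∈ A) :
    (A.filter fun x => x.2 = p.2).card ≤ (A.filter fun x => x.2 = q.2).card ∧
    ∀ r ∈ S, (A.filter fun x => (x.1 : ℚ) + r * (x.2 : ℚ) = (p.1 : ℚ) + r * (p.2 : ℚ)).card ≤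
      (A.filter fun x => (x.1 : ℚ) + r * (x.2 : ℚ) = (q.1 : ℚ) + r * (q.2 : ℚ)).card := by
  obtain ⟨γ, h1, h2, h3⟩ := h p hp q hq
  refine ⟨?_, fun r hr => ?_⟩
  · refine card_le_card_of_injOn γ (fun x hx => ?_) (h1.injOn.mono ?_)
    · rw [mem_coe, mem_filter] at hx
      rw [mem_coe, mem_filter]
      refine ⟨mem_coe.1 (h1.mapsTo (mem_coe.2 hx.1)), ?_⟩
      rw [← h2]
      exact ((h3 x hx.1 p hp).1).1 hx.2
    · intro x hx
      exact mem_coe.2 (mem_filter.1 (mem_coe.1 hx)).1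
  · refine card_le_card_of_injOn γ (fun x hx => ?_) (h1.injOn.mono ?_)
    · rw [mem_coe, mem_filter] at hx
      rw [mem_coe, mem_filter]
      refine ⟨mem_coe.1 (h1.mapsTo (mem_coe.2 hx.1)), ?_⟩
      rw [← h2]
      exact ((h3 x hx.1 p hp).2 r hr).1 hx.2
    · intro x hx
      exact mem_coe.2 (mem_filter.1 (mem_coe.1 hx)).1

theorem hom_iff {κ : ℝ} (hκ : 0 ≤ κ) : Attained κ ↔ HomBound κ := by
  constructor
  · rintro ⟨S, h0, h⟩
    refine ⟨S, h0, 1, 1, one_pos, fun A hA _ _ => ?_⟩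
    rw [one_mul]
    have h1 := h A
    have h2 : (proj (-1) A).card = A.card := by
      have h3 := Pool.Agent.V7H22.AK.card_diff A
      rw [show (proj (-1) A).card = (Pool.Agent.V7H22.AK.proj (-1) A).card from rfl, h3]
      exact card_image_of_injOn hA
    rwa [h2] at h1
  · rintro ⟨S, h0, η, C, hη, h⟩
    by_contra hcon
    obtain ⟨A, -, h1, h2, h3, h4⟩ := Pool.Agent.V7H22.AK.hom hκ hcon S h0 hη C
    exact absurd (h A h1 h2 h3) (not_le.2 h4)

theorem mean {κ κ' : ℝ} (hκ : 1 ≤ κ) (hκκ : κ < κ') (h : Attained κ) :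
    ∃ K : ℕ, 1 ≤ K ∧ MultMean κ' K := by
  obtain ⟨K0, hK0⟩ := Pool.Agent.V7H22.AK.geo hκ hκκ h
  refine ⟨K0 + 1, by omega, Pool.Agent.V7H22.AK.multMean_of_mean fun A => ?_⟩
  have h1 := hK0 (K0 + 1) (by omega) 0 1 one_ne_zero A
  simp only [zero_add, one_mul] at h1
  exact h1

theorem almost {κ : ℝ} (h : Attained κ) {θ : ℝ} (hθ : 0 < θ) : ∃ K0 : ℕ, 1 ≤ K0 ∧
    ∀ K : ℕ, K0 ≤ K → ∀ a δ : ℚ, δ ≠ 0 →
      AlmostAll κ θ (range K) (fun b => a + δ * (b : ℚ)) := by
  obtain ⟨K0, h1, hK0⟩ := Pool.Agent.V7H22.AK.prog h hθ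
  refine ⟨K0, h1, fun K hK a δ hδ A => ?_⟩
  have h2 := hK0 K hK a δ hδ A
  rw [← Pool.Agent.V7H22.AK.card_diff] at h2
  rw [card_range]
  exact h2

theorem result :
    -- 0. the slopes with the coordinates `u`
    (∀ A : Finset (ℤ × ℤ), (∀ r : ℚ, r ≠ -1 → (proj r A).card = (projU (1 / (r + 1)) A).card) ∧
      (projInf A).card = (projU 0 A).card) ∧
    -- 1. the numbers of rearrangements of vectors
    (∀ (S : Finset ℚ) (κ : ℝ), 0 ≤ κ → (-1 : ℚ) ∉ S → (Bound S κ ↔ MultBound S κ)) ∧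
    (Conjecture ↔ ∀ ε : ℝ, 0 < ε → ∃ K : ℕ, 1 ≤ K ∧ MultMean (1 + ε) K) ∧
    -- 2. homogeneous flat sets suffice
    (∀ κ : ℝ, 0 ≤ κ → (Attained κ ↔ HomBound κ)) ∧
    (Conjecture ↔ ∀ ε : ℝ, 0 < ε → HomBound (1 + ε)) ∧
    (∀ (S : Finset ℚ) (A : Finset (ℤ × ℤ)), Homogeneous S A → ∀ p ∈ A, ∀ q ∈ A,
      (A.filter fun x => x.2 = p.2).card = (A.filter fun x => x.2 = q.2).card ∧
      ∀ r ∈ S, (A.filter fun x => (x.1 : ℚ) + r * (x.2 : ℚ) = (p.1 : ℚ) + r * (p.2 : ℚ)).card =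
        (A.filter fun x => (x.1 : ℚ) + r * (x.2 : ℚ) = (q.1 : ℚ) + r * (q.2 : ℚ)).card) ∧
    -- 3. almost all slopes of progressions, cubes, almost invariant sets
    (∀ κ : ℝ, Attained κ → ∀ θ : ℝ, 0 < θ → ∃ K0 : ℕ, ∀ K : ℕ, K0 ≤ K → ∀ a δ : ℚ, δ ≠ 0 →
      AlmostAll κ θ (range K) (fun b => a + δ * (b : ℚ))) ∧
    (∀ κ : ℝ, Attained κ → ∃ k : ℕ, ∀ m : ℕ, k ≤ m → ∀ θ : ℝ, 0 < θ →
      ∃ n0 : ℕ, ∀ n : ℕ, n0 ≤ n → ∀ (a : ℚ) (c : Fin n → ℚ),
        (∀ I : Finset (Fin n), I.Nonempty → ∑ i ∈ I, c i ≠ 0) →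
          AlmostAll κ θ (univ : Finset (Fin n → Fin (m + 1)))
            (fun w => a + ∑ i, c i * ((w i : ℕ) : ℚ))) ∧
    (∀ κ : ℝ, Attained κ → ∀ θ : ℝ, 0 < θ → ∃ (n : ℕ) (η : ℝ), 0 < η ∧
      ∀ (F : Finset ℚ) (c : Fin n → ℚ), (∀ I : Finset (Fin n), I.Nonempty → ∑ i ∈ I, c i ≠ 0) →
        (∀ i, ((F.filter fun x => x - c i ∉ F).card : ℝ) ≤ η * F.card) →
          AlmostAll κ θ F (fun u => u)) ∧
    Attained 1.669587 ∧
    (Conjecture ↔ ∀ ε θ : ℝ, 0 < ε → 0 < θ → ∃ K0 : ℕ, ∀ K : ℕ, K0 ≤ K → ∀ a δ : ℚ, δ ≠ 0 →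
      AlmostAll (1 + ε) θ (range K) (fun b => a + δ * (b : ℚ))) := by
  refine ⟨fun A => ⟨fun r hr => Pool.Agent.V7H22.AK.card_proj hr A,
    Pool.Agent.V7H22.AK.card_projInf A⟩, fun S κ hκ h0 => Pool.Agent.V7H22.AK.bound_iff_mult hκ h0,
    ⟨?_, ?_⟩, fun κ hκ => hom_iff hκ, ?_, ?_, ?_, ?_, ?_, Pool.Agent.V7H22.AK.attained_sdc, ?_⟩
  · intro h ε hε
    exact mean (κ := 1 + ε / 2) (κ' := 1 + ε) (by linarith) (by linarith) (h (ε / 2) (by positivity))
  · intro h ε hε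
    obtain ⟨K, hK, hA⟩ := h ε hε
    exact Pool.Agent.V7H22.AK.attained_of_multMean (by linarith) hK hA
  · exact forall_congr' fun ε => forall_congr' fun hε => hom_iff (by linarith)
  · intro S A h p hp q hq
    exact ⟨le_antisymm (fibres h hp hq).1 (fibres h hq hp).1, fun r hr =>
      le_antisymm ((fibres h hp hq).2 r hr) ((fibres h hq hp).2 r hr)⟩
  · intro κ h θ hθ
    obtain ⟨K0, -, hK0⟩ := almost h hθ
    exact ⟨K0, hK0⟩
  · intro κ h
    obtain ⟨k, hk⟩ := Pool.Agent.V7H22.AK.cube h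
    refine ⟨k, fun m hm θ hθ => ?_⟩
    obtain ⟨n0, hn0⟩ := hk m hm θ hθ
    refine ⟨n0, fun n hn a c hc A => ?_⟩
    have h2 := hn0 n hn a c hc A
    rw [← Pool.Agent.V7H22.AK.card_diff] at h2
    have h3 : (((univ : Finset (Fin n → Fin (m + 1))).card : ℕ) : ℝ) = ((m : ℝ) + 1) ^ n := by
      rw [card_univ, Fintype.card_fun, Fintype.card_fin, Fintype.card_fin]
      push_cast
      rfl
    rw [h3]
    exact h2
  · intro κ h θ hθ
    obtain ⟨n, η, hη, hn⟩ := Pool.Agent.V7H22.AK.folner h hθ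
    refine ⟨n, η, hη, fun F c hc hF A => ?_⟩
    have h2 := hn F c hc hF A
    rw [← Pool.Agent.V7H22.AK.card_diff] at h2
    exact h2
  · constructor
    · intro h ε θ hε hθ
      obtain ⟨K0, -, hK0⟩ := almost (h ε hε) hθ
      exact ⟨K0, hK0⟩
    · intro h ε hε
      obtain ⟨K0, hK0⟩ := h ε (1 / 2) hε (by norm_num)
      refine Pool.Agent.V7H22.AK.attained_of_almost (by linarith) (K := K0 + 1) (by omega)
        (θ := 1 / 2) (by norm_num) fun A => ?_
      have h1 := hK0 (K0 + 1) (by omega) 0 1 one_ne_zero A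
      simp only [zero_add, one_mul, card_range] at h1
      rw [← Pool.Agent.V7H22.AK.card_diff]
      exact h1

end Pool.Agent.Results.MP_169869_co.HomogeneousSetsH22
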